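import Pool.Agent.Helper18.UW.GoalsG
import Pool.Agent.Helper15.EW.GA

/-! Packet UW-GA4 (project UW of helper18): unit steps with unequal multiplicities. -/

set_option autoImplicit false

namespace Pool.Agent.Helper31.UW

open Finset Pool.Agent.Helper18.UW
open Pool.Agent.Helper15.EW (term_anti term_step)

theorem goalGA4 : GoalGA4 := by
  intro μ A ms e P0 g he hne hP0 hS0 hg
  let S : ℕ → ℕ := fun P => ∑ i ∈ A, (ms i - P / e i)
  have hanti : ∀ P Q, P ≤ Q → S Q ≤ S P := fun P Q h =>
    Finset.sum_le_sum fun i _ => term_anti (ms i) (e i) P Q h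
  have hstep : ∀ P, S P ≤ S (P + 1) + 1 := by
    intro P
    have h1 : S P ≤ ∑ i ∈ A, ((ms i - (P + 1) / e i) +
        (if e i ∣ P + 1 ∧ (P + 1) / e i ≤ ms i then 1 else 0)) :=
      Finset.sum_le_sum fun i _ => term_step (ms i) (e i) P
    rw [Finset.sum_add_distrib] at h1
    have h2 : ∑ i ∈ A, (if e i ∣ P + 1 ∧ (P + 1) / e i ≤ ms i then 1 else 0) ≤ 1 := by
      rw [← Finset.card_filter, Finset.card_le_one]
      intro i hi j hj
      rw [Finset.mem_filter] at hi hj
      by_contra hij
      obtain ⟨hik, ⟨a, ha⟩, ha2⟩ := hi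
      obtain ⟨hjk, ⟨c, hc⟩, hc2⟩ := hj
      have hei := (he i hik).1
      have hej := (he j hjk).1
      rw [ha, Nat.mul_div_cancel_left _ hei] at ha2
      rw [hc, Nat.mul_div_cancel_left _ hej] at hc2
      have ha1 : 1 ≤ a := by
        rcases Nat.eq_zero_or_pos a with h | h
        · subst h; simp at ha
        · exact h
      have hc1 : 1 ≤ c := by
        rcases Nat.eq_zero_or_pos c with h | h
        · subst h; simp at hc
        · exact h
      exact hne i hik j hjk hij a c ha1 (ha2.trans (he i hik).2.2) hc1 (hc2.trans (he j hjk).2.2)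
        (by rw [mul_comm a, mul_comm c, ← ha, ← hc])
    exact h1.trans (Nat.add_le_add_left h2 _)
  have hex : ∃ P, S P ≤ g := ⟨P0, hS0⟩
  classical
  let P' := Nat.find hex
  have hP'g : S P' ≤ g := Nat.find_spec hex
  have hP'le : P' ≤ P0 := Nat.find_min' hex hS0
  have hS00 : S 0 = ∑ i ∈ A, ms i := by simp [S]
  have hP'1 : 1 ≤ P' := by
    rcases Nat.eq_zero_or_pos P' with h | h
    · rw [h, hS00] at hP'g
      omega
    · exact h
  have hprev : g < S (P' - 1) := by
    have := Nat.find_min hex (m := P' - 1) (by change P' - 1 < P'; omega)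
    omega
  have hs := hstep (P' - 1)
  rw [Nat.sub_add_cancel hP'1] at hs
  have hSeq : S P' = g := by omega
  -- some `e i` divides `P'`
  have hdiv : ∃ i ∈ A, e i ∣ P' := by
    by_contra hcon
    push Not at hcon
    have : S (P' - 1) = S P' := by
      apply Finset.sum_congr rfl
      intro i hi
      have h1 := hcon i hi
      have h2 : P' / e i = (P' - 1) / e i := by
        conv_lhs => rw [← Nat.sub_add_cancel hP'1]
        rw [Nat.succ_div, Nat.sub_add_cancel hP'1, if_neg h1, add_zero]
      rw [h2]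
    omega
  obtain ⟨i, hi, hid⟩ := hdiv
  have heven : 2 ∣ P' := (he i hi).2.1.trans hid
  obtain ⟨p0, hp0⟩ := hP0
  obtain ⟨p1, hp1⟩ := heven
  refine ⟨P' + 1, ⟨p1, by omega⟩, by omega, ?_⟩
  have : S (P' + 1) = S P' := by
    apply Finset.sum_congr rfl
    intro j hj
    have h1 := (he j hj).2.1
    have h2 : ¬ e j ∣ P' + 1 := by
      intro h
      obtain ⟨z, hz⟩ := h1.trans h
      omega
    rw [Nat.succ_div, if_neg h2, add_zero]
  exact this.trans hSeq

end Pool.Agent.Helper31.UW
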